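import Pool.Agent.NDR.StmtsG

set_option autoImplicit false

namespace Pool.Agent.NDR.H77K

open Finset

section
open Classical

variable {T R : Type} [CommRing R]

theorem kd_def (a : T → R) (S : Finset T) (x : Finset T → R) (U : Finset T) :
    kd a S x U = ∑ j ∈ S \ U, sg j U • (a j * x (insert j U)) := rfl

/-- the part without `j` -/
noncomputable def c0 (j : T) (x : Finset T → R) (U : Finset T) : R := if j ∈ U then 0 else x U

/-- the part with `j` -/
noncomputable def c1 (j : T) (x : Finset T → R) (U : Finset T) : R :=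
  if j ∈ U then 0 else sg j U • x (insert j U)

theorem kd_out (a : T → R) (S : Finset T) (j : T) (hj : j ∉ S) (x : Finset T → R)
    (U : Finset T) (hU : j ∉ U) :
    kd a (insert j S) x U = kd a S (c0 j x) U + a j * c1 j x U := by
  have h1 : insert j S \ U = insert j (S \ U) := Finset.insert_sdiff_of_notMem _ hU
  have h2 : j ∉ S \ U := fun h => hj (Finset.mem_sdiff.mp h).1
  rw [kd_def, h1, Finset.sum_insert h2, kd_def, add_comm]
  refine congrArg₂ (· + ·) (Finset.sum_congr rfl fun k hk => ?_) ?_
  · have hk1 := (Finset.mem_sdiff.mp hk).1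
    have hjk : j ∉ insert k U := by
      rw [Finset.mem_insert]
      rintro (h | h)
      · exact hj (h ▸ hk1)
      · exact hU h
    unfold c0
    rw [if_neg hjk]
  · unfold c1
    rw [if_neg hU, mul_smul_comm]

theorem kd_in (hsg : ∀ (j k : T) (U : Finset T), j ≠ k → j ∉ U → k ∉ U →
      sg j (insert k U) * sg k U = - (sg k (insert j U) * sg j U))
    (a : T → R) (S : Finset T) (j : T) (hj : j ∉ S) (x : Finset T → R)
    (U : Finset T) (hU : j ∉ U) :
    sg j U • kd a (insert j S) x (insert j U) = - kd a S (c1 j x) U := by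
  have h1 : insert j S \ insert j U = S \ U := by
    ext k
    simp only [Finset.mem_sdiff, Finset.mem_insert]
    constructor
    · rintro ⟨h1 | h1, h2⟩
      · exact absurd (Or.inl h1) h2
      · exact ⟨h1, fun h => h2 (Or.inr h)⟩
    · rintro ⟨h1, h2⟩
      refine ⟨Or.inr h1, ?_⟩
      rintro (h | h)
      · exact hj (h ▸ h1)
      · exact h2 h
  rw [kd_def, h1, kd_def, Finset.smul_sum, ← Finset.sum_neg_distrib]
  refine Finset.sum_congr rfl fun k hk => ?_
  obtain ⟨hk1, hk2⟩ := Finset.mem_sdiff.mp hk
  have hjk : j ≠ k := fun h => hj (h ▸ hk1)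
  have hjk' : j ∉ insert k U := by
    rw [Finset.mem_insert]
    rintro (h | h)
    · exact hjk h
    · exact hU h
  unfold c1
  rw [if_neg hjk', mul_smul_comm, smul_smul, smul_smul, ← neg_smul, Finset.insert_comm k j U]
  have h3 := hsg j k U hjk hU hk2
  refine congrArg₂ (· • ·) ?_ rfl
  rw [mul_comm (sg k U), h3, neg_neg, mul_comm]

theorem kd_zero_of_chn (a : T → R) (S : Finset T) (j : T) (hj : j ∉ S) (N : AddSubgroup R) (i : ℕ)
    (x : Finset T → R) (hx : Chn S N i x) (U : Finset T) (hU : j ∈ U) : kd a S x U = 0 := by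
  rw [kd_def]
  refine Finset.sum_eq_zero fun k _ => ?_
  have h0 : x (insert k U) = 0 := by
    by_contra h
    exact hj (((hx _).2 h).1 (Finset.mem_insert_of_mem hU))
  rw [h0, mul_zero, smul_zero]

theorem kd_add (a : T → R) (S : Finset T) (x y : Finset T → R) (U : Finset T) :
    kd a S (fun V => x V + y V) U = kd a S x U + kd a S y U := by
  rw [kd_def, kd_def, kd_def, ← Finset.sum_add_distrib]
  refine Finset.sum_congr rfl fun k _ => ?_
  rw [mul_add, smul_add]

theorem kd_mul (a : T → R) (S : Finset T) (r : R) (x : Finset T → R) (U : Finset T) :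
    kd a S (fun V => r * x V) U = r * kd a S x U := by
  rw [kd_def, kd_def, Finset.mul_sum]
  refine Finset.sum_congr rfl fun k _ => ?_
  rw [mul_smul_comm, mul_left_comm]

theorem smul_mem' (N : AddSubgroup R) (z : ℤ) {r : R} (hr : r ∈ N) : z • r ∈ N :=
  N.zsmul_mem hr z

theorem sg_cancel (hss : ∀ (j : T) (U : Finset T), sg j U * sg j U = 1) (j : T) (U : Finset T)
    {p q : R} (h : sg j U • p = sg j U • q) : p = q := by
  have := congrArg (fun r => sg j U • r) h
  simp only [smul_smul, hss, one_smul] at this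
  exact this

theorem main (hsg : ∀ (j k : T) (U : Finset T), j ≠ k → j ∉ U → k ∉ U →
      sg j (insert k U) * sg k U = - (sg k (insert j U) * sg j U))
    (hss : ∀ (j : T) (U : Finset T), sg j U * sg j U = 1)
    (a : T → R) (S : Finset T) (j : T) (N : AddSubgroup R) (n : ℕ) (hj : j ∉ S)
    (hst : Stb a (insert j S) N) (hex : ∀ i, n ≤ i → ExP a S N ⊥ i) (i : ℕ) (hi : n + 1 ≤ i) :
    ExP a (insert j S) N ⊥ i := by
  intro x hx hkx
  have hkx' : ∀ U, kd a (insert j S) x U = 0 := fun U => by
    have := hkx U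
    rwa [AddSubgroup.mem_bot] at this
  have hsub : ∀ U : Finset T, j ∉ U → U ⊆ insert j S → U ⊆ S := by
    intro U hU h k hk
    rcases Finset.mem_insert.mp (h hk) with h1 | h1
    · exact absurd (h1 ▸ hk) hU
    · exact h1
  -- x₁ is a chain
  have hx1 : Chn S N (i - 1) (c1 j x) := by
    intro U
    unfold c1
    by_cases hU : j ∈ U
    · rw [if_pos hU]
      exact ⟨N.zero_mem, fun h => absurd rfl h⟩
    · rw [if_neg hU]
      refine ⟨smul_mem' N _ (hx _).1, fun h => ?_⟩
      have h0 : x (insert j U) ≠ 0 := by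
        intro h1
        rw [h1, smul_zero] at h
        exact h rfl
      obtain ⟨h1, h2⟩ := (hx _).2 h0
      refine ⟨hsub U hU (fun k hk => h1 (Finset.mem_insert_of_mem hk)), ?_⟩
      rw [Finset.card_insert_of_notMem hU] at h2
      omega
  obtain ⟨y1, hy1, hxy1⟩ := hex (i - 1) (by omega) (c1 j x) hx1 (fun U => by
    rw [AddSubgroup.mem_bot]
    by_cases hU : j ∈ U
    · exact kd_zero_of_chn a S j hj N _ _ hx1 U hU
    · have h1 := kd_in hsg a S j hj x U hU
      rw [hkx', smul_zero] at h1
      exact (neg_eq_zero.mp h1.symm))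
  have hi1 : i - 1 + 1 = i := by omega
  rw [hi1] at hy1
  have hxy1' : ∀ U, c1 j x U = kd a S y1 U := fun U => by
    have := hxy1 U
    rw [AddSubgroup.mem_bot] at this
    exact sub_eq_zero.mp this
  -- z
  have hz : Chn S N i (fun U => c0 j x U + a j * y1 U) := by
    intro U
    have hmem : c0 j x U ∈ N := by
      unfold c0
      split_ifs
      · exact N.zero_mem
      · exact (hx U).1
    refine ⟨N.add_mem hmem (hst j (Finset.mem_insert_self j S) _ (hy1 U).1), fun h => ?_⟩
    by_cases h1 : y1 U = 0
    · have h2 : c0 j x U ≠ 0 := by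
        intro h3
        apply h
        show c0 j x U + a j * y1 U = 0
        rw [h3, h1, mul_zero, add_zero]
      unfold c0 at h2
      by_cases hU : j ∈ U
      · rw [if_pos hU] at h2
        exact absurd rfl h2
      · rw [if_neg hU] at h2
        obtain ⟨h4, h5⟩ := (hx U).2 h2
        exact ⟨hsub U hU h4, h5⟩
    · exact (hy1 U).2 h1
  obtain ⟨y0, hy0, hzy0⟩ := hex i (by omega) _ hz (fun U => by
    rw [AddSubgroup.mem_bot]
    by_cases hU : j ∈ U
    · exact kd_zero_of_chn a S j hj N _ _ hz U hU
    · rw [kd_add, kd_mul, ← hxy1' U, ← kd_out a S j hj x U hU, hkx'])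
  have hzy0' : ∀ U, c0 j x U + a j * y1 U = kd a S y0 U := fun U => by
    have := hzy0 U
    rw [AddSubgroup.mem_bot] at this
    exact sub_eq_zero.mp this
  -- y
  set y : Finset T → R := fun U =>
    if j ∈ U then - (sg j (U.erase j) • y1 (U.erase j)) else y0 U with hy
  have hyc0 : c0 j y = y0 := by
    funext U
    unfold c0
    by_cases hU : j ∈ U
    · rw [if_pos hU]
      by_contra h
      exact hj (((hy0 U).2 (Ne.symm h)).1 hU)
    · rw [if_neg hU, hy]
      simp only [if_neg hU]
  have hyc1 : c1 j y = fun U => (-1) * y1 U := by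
    funext U
    unfold c1
    by_cases hU : j ∈ U
    · rw [if_pos hU]
      have h0 : y1 U = 0 := by
        by_contra h
        exact hj (((hy1 U).2 h).1 hU)
      rw [h0, mul_zero]
    · rw [if_neg hU, hy]
      simp only [if_pos (Finset.mem_insert_self j U)]
      rw [Finset.erase_insert hU, smul_neg, smul_smul, hss, one_smul, neg_one_mul]
  refine ⟨y, ?_, ?_⟩
  · intro U
    rw [hy]
    by_cases hU : j ∈ U
    · simp only [if_pos hU]
      refine ⟨N.neg_mem (smul_mem' N _ (hy1 _).1), fun h => ?_⟩
      have h0 : y1 (U.erase j) ≠ 0 := by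
        intro h1
        rw [h1, smul_zero, neg_zero] at h
        exact h rfl
      obtain ⟨h1, h2⟩ := (hy1 _).2 h0
      constructor
      · intro k hk
        by_cases hkj : k = j
        · rw [hkj]; exact Finset.mem_insert_self j S
        · exact Finset.mem_insert_of_mem (h1 (Finset.mem_erase.mpr ⟨hkj, hk⟩))
      · rw [← Finset.card_erase_add_one hU, h2]
    · simp only [if_neg hU]
      refine ⟨(hy0 U).1, fun h => ?_⟩
      obtain ⟨h1, h2⟩ := (hy0 U).2 h
      exact ⟨h1.trans (Finset.subset_insert j S), h2⟩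
  · intro U
    rw [AddSubgroup.mem_bot, sub_eq_zero]
    by_cases hU : j ∈ U
    · -- U = insert j V
      have hV : j ∉ U.erase j := Finset.notMem_erase j U
      have hUV : insert j (U.erase j) = U := Finset.insert_erase hU
      refine sg_cancel hss j (U.erase j) ?_
      have h1 := kd_in hsg a S j hj y (U.erase j) hV
      rw [hUV, hyc1, kd_mul, ← hxy1', neg_one_mul, neg_neg] at h1
      rw [h1]
      unfold c1
      rw [if_neg hV, hUV]
    · rw [kd_out a S j hj y U hU, hyc0, hyc1, ← hzy0' U]
      unfold c0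
      rw [if_neg hU]
      ring

end

theorem kad (hk : KsgStmt) : KadStmt := by
  intro T R inst _ a S j N n hj hst hex i hi
  obtain rfl : inst = fun a b => Classical.propDecidable (a = b) := Subsingleton.elim _ _
  obtain ⟨h1, h2, -, -⟩ := @hk T R (fun a b => Classical.propDecidable (a = b)) _
  exact main h1 h2 a S j N n hj hst hex i hi

end Pool.Agent.NDR.H77K
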