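import Pool.Agent.NDR.StmtsC

set_option autoImplicit false

namespace Pool.Agent.NDR.H77C

open Finset Pool.Agent.Helper6_Mono Pool.Agent.Helper30_Simp

variable {σ : Type} {R : Type} [CommRing R]

theorem supIn_add {S : Set (Option σ →₀ ℕ)} {P Q : MvPolynomial (Option σ) R}
    (hP : SupIn S P) (hQ : SupIn S Q) : SupIn S (P + Q) := by
  classical
  intro n hn
  rcases Finset.mem_union.mp (MvPolynomial.support_add hn) with h | h
  · exact hP n h
  · exact hQ n h

theorem supIn_neg {S : Set (Option σ →₀ ℕ)} {P : MvPolynomial (Option σ) R}
    (hP : SupIn S P) : SupIn S (-P) := by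
  intro n hn
  rw [MvPolynomial.support_neg] at hn
  exact hP n hn

theorem supIn_sub {S : Set (Option σ →₀ ℕ)} {P Q : MvPolynomial (Option σ) R}
    (hP : SupIn S P) (hQ : SupIn S Q) : SupIn S (P - Q) := by
  rw [sub_eq_add_neg]
  exact supIn_add hP (supIn_neg hQ)

theorem supIn_zero {S : Set (Option σ →₀ ℕ)} : SupIn S (0 : MvPolynomial (Option σ) R) := by
  intro n hn
  simp at hn

theorem supIn_sum {S : Set (Option σ →₀ ℕ)} {J : Type} (T : Finset J)
    (P : J → MvPolynomial (Option σ) R) (h : ∀ j ∈ T, SupIn S (P j)) : SupIn S (∑ j ∈ T, P j) := by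
  classical
  induction T using Finset.induction_on with
  | empty => simpa using supIn_zero
  | insert a T ha ih =>
    rw [Finset.sum_insert ha]
    exact supIn_add (h a (Finset.mem_insert_self a T))
      (ih fun j hj => h j (Finset.mem_insert_of_mem hj))

theorem supIn_mono {S T : Set (Option σ →₀ ℕ)} {P : MvPolynomial (Option σ) R} (h : S ⊆ T)
    (hP : SupIn S P) : SupIn T P := fun n hn => h (hP n hn)

theorem supIn_mul {S T : Set (Option σ →₀ ℕ)} {A P : MvPolynomial (Option σ) R}
    (hP : SupIn S P) (h : ∀ m ∈ A.support, ∀ n ∈ S, m + n ∈ T) : SupIn T (A * P) := by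
  classical
  intro n hn
  obtain ⟨m, hm, l, hl, rfl⟩ := Finset.mem_add.mp (MvPolynomial.support_mul A P hn)
  exact h m hm l (hP l hl)

theorem supIn_monomial_mul {S T : Set (Option σ →₀ ℕ)} {P : MvPolynomial (Option σ) R}
    (m : Option σ →₀ ℕ) (c : R) (hP : SupIn S P) (h : ∀ n ∈ S, m + n ∈ T) :
    SupIn T (MvPolynomial.monomial m c * P) := by
  refine supIn_mul hP fun m' hm' n hn => ?_
  have := MvPolynomial.support_monomial_subset hm'
  rw [Finset.mem_singleton] at this
  rw [this]
  exact h n hn

theorem supIn_monomial {T : Set (Option σ →₀ ℕ)} (m : Option σ →₀ ℕ) (c : R) (h : m ∈ T) :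
    SupIn T (MvPolynomial.monomial m c) := by
  intro m' hm'
  have := MvPolynomial.support_monomial_subset hm'
  rw [Finset.mem_singleton] at this
  rw [this]
  exact h

theorem supIn_pderiv {S T : Set (Option σ →₀ ℕ)} {P : MvPolynomial (Option σ) R} (j : Option σ)
    (hP : SupIn S P) (h : ∀ n ∈ S, n j ≠ 0 → n - Finsupp.single j 1 ∈ T) :
    SupIn T (MvPolynomial.pderiv j P) := by
  rw [P.as_sum, map_sum]
  refine supIn_sum _ _ fun n hn => ?_
  rw [MvPolynomial.pderiv_monomial]
  by_cases h0 : n j = 0
  · rw [h0, Nat.cast_zero, mul_zero, MvPolynomial.monomial_zero]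
    exact supIn_zero
  · exact supIn_monomial _ _ (h n (hP n hn) h0)

theorem inc_g (I : Finset σ) (L : ℕ) (c : σ → R) :
    inc (∑ i ∈ I, MvPolynomial.C (c i) * MvPolynomial.X i ^ L) =
      ∑ i ∈ I, MvPolynomial.monomial (Finsupp.single (some i) L) (c i) := by
  unfold inc
  rw [map_sum]
  refine Finset.sum_congr rfl fun i _ => ?_
  rw [map_mul, map_pow, MvPolynomial.rename_C, MvPolynomial.rename_X,
    MvPolynomial.C_mul_X_pow_eq_monomial]

theorem sum_single [DecidableEq σ] (I : Finset σ) (i : σ) (hi : i ∈ I) (k : σ → ℕ) (a : ℕ) :
    ∑ j ∈ I, (k j + if j = i then a else 0) = ∑ j ∈ I, k j + a := by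
  rw [Finset.sum_add_distrib, Finset.sum_ite_eq' I i, if_pos hi]

theorem cls : ClsStmt := by
  classical
  intro σ _ R _ I L t d c s Q hQ
  set g := inc (∑ i ∈ I, MvPolynomial.C (c i) * MvPolynomial.X i ^ L) with hg
  have hgs : g = ∑ i ∈ I, MvPolynomial.monomial (Finsupp.single (some i) L) (c i) := inc_g I L c
  have hX : (MvPolynomial.X none : MvPolynomial (Option σ) R) =
      MvPolynomial.monomial (Finsupp.single none 1) 1 := rfl
  refine ⟨?_, ?_, ?_⟩
  · unfold tE
    refine supIn_add (supIn_sub ?_ ?_) ?_
    · -- X * pderiv none Q
      have h1 : SupIn {m : Option σ →₀ ℕ | Finsupp.single none 1 + m ∈ Wc I L t ∩ Uc I L d}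
          (MvPolynomial.pderiv none Q) := by
        refine supIn_pderiv none hQ fun n hn h0 => ?_
        have e : Finsupp.single none 1 + (n - Finsupp.single none 1) = n := by
          ext j
          by_cases hj : j = none
          · subst hj
            simp only [Finsupp.add_apply, Finsupp.tsub_apply, Finsupp.single_eq_same]
            omega
          · simp [Finsupp.single_eq_of_ne hj]
        show Finsupp.single none 1 + (n - Finsupp.single none 1) ∈ Wc I L t ∩ Uc I L d
        rw [e]
        exact hn
      rw [hX]
      exact supIn_monomial_mul _ _ h1 fun n hn => hn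
    · refine supIn_mul hQ fun m hm n hn => ?_
      have h2 := MvPolynomial.support_monomial_subset
        (show m ∈ (MvPolynomial.monomial (0 : Option σ →₀ ℕ) s).support from hm)
      rw [Finset.mem_singleton] at h2
      rw [h2, zero_add]
      exact hn
    · rw [mul_assoc, hgs, Finset.sum_mul, Finset.mul_sum]
      refine supIn_sum _ _ fun i hi => ?_
      rw [← mul_assoc, hX, MvPolynomial.monomial_mul, one_mul]
      refine supIn_monomial_mul _ _ hQ ?_
      rintro n ⟨⟨k, hk1, hk2⟩, hu⟩
      have en : (Finsupp.single none 1 + Finsupp.single (some i) L + n : Option σ →₀ ℕ) none =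
          n none + 1 := by
        simp [add_comm]
      have es : ∀ j : σ, (Finsupp.single none 1 + Finsupp.single (some i) L + n :
          Option σ →₀ ℕ) (some j) = n (some j) + if j = i then L else 0 := by
        intro j
        by_cases hj : j = i
        · subst hj
          simp [add_comm]
        · have : (some j : Option σ) ≠ some i := fun h => hj (Option.some.inj h)
          simp [Finsupp.single_eq_of_ne this, hj]
      constructor
      · refine ⟨fun j => k j + if j = i then 1 else 0, ?_, ?_⟩
        · rw [sum_single I i hi k 1, hk1, en]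
        · refine le_trans (Finset.sum_le_sum fun j _ => ?_) hk2
          rw [es]
          by_cases hj : j = i
          · simp only [hj, if_true, mul_add, mul_one]
            omega
          · simp only [hj, if_false, add_zero, le_refl]
      · rw [Uc, Set.mem_ofPred_eq]
        rw [Finset.sum_congr rfl fun j _ => es j, sum_single I i hi (fun j => n (some j)) L, en]
        have hu' : ∑ j ∈ I, n (some j) ≤ d + L * n none := hu
        rw [mul_add, mul_one]
        omega
  · intro i hi
    unfold dE
    refine supIn_add ?_ ?_
    · refine supIn_pderiv (some i) hQ ?_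
      rintro n ⟨⟨k, hk1, hk2⟩, hu⟩ h0
      have en : (n - Finsupp.single (some i) 1 : Option σ →₀ ℕ) none = n none := by
        simp
      have es : ∀ j : σ, (n - Finsupp.single (some i) 1 : Option σ →₀ ℕ) (some j) =
          n (some j) - if j = i then 1 else 0 := by
        intro j
        by_cases hj : j = i
        · subst hj
          simp
        · have : (some j : Option σ) ≠ some i := fun h => hj (Option.some.inj h)
          simp [Finsupp.single_eq_of_ne this, hj]
      constructor
      · refine ⟨k, by rw [hk1, en], ?_⟩
        have h3 : ∑ j ∈ I, (L * k j - (n - Finsupp.single (some i) 1 : Option σ →₀ ℕ) (some j)) ≤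
            ∑ j ∈ I, ((L * k j - n (some j)) + if j = i then 1 else 0) := by
          refine Finset.sum_le_sum fun j _ => ?_
          rw [es]
          split_ifs <;> omega
        rw [sum_single I i hi (fun j => L * k j - n (some j)) 1] at h3
        omega
      · rw [Uc, Set.mem_ofPred_eq]
        have hu' : ∑ j ∈ I, n (some j) ≤ d + L * n none := hu
        rw [en]
        refine le_trans (Finset.sum_le_sum fun j _ => ?_) hu'
        rw [es]
        omega
    · have hd : MvPolynomial.pderiv (some i) g =
          MvPolynomial.monomial (Finsupp.single (some i) L - Finsupp.single (some i) 1)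
            (c i * (L : R)) := by
        rw [hgs, map_sum, Finset.sum_eq_single i]
        · rw [MvPolynomial.pderiv_monomial, Finsupp.single_eq_same]
        · intro j _ hj
          have : (some i : Option σ) ≠ some j := fun h => hj (Option.some.inj h).symm
          rw [MvPolynomial.pderiv_monomial, Finsupp.single_eq_of_ne this, Nat.cast_zero, mul_zero,
            MvPolynomial.monomial_zero]
        · intro h
          exact absurd hi h
      rw [hd]
      by_cases hL : L = 0
      · subst hL
        rw [Nat.cast_zero, mul_zero, MvPolynomial.monomial_zero, mul_zero, zero_mul]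
        exact supIn_zero
      · rw [hX, MvPolynomial.monomial_mul, one_mul]
        refine supIn_monomial_mul _ _ hQ ?_
        rintro n ⟨⟨k, hk1, hk2⟩, hu⟩
        have en : (Finsupp.single none 1 + (Finsupp.single (some i) L - Finsupp.single (some i) 1)
            + n : Option σ →₀ ℕ) none = n none + 1 := by
          simp [add_comm]
        have es : ∀ j : σ, (Finsupp.single none 1 + (Finsupp.single (some i) L -
            Finsupp.single (some i) 1) + n : Option σ →₀ ℕ) (some j) =
            n (some j) + if j = i then L - 1 else 0 := by
          intro j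
          by_cases hj : j = i
          · subst hj
            simp [add_comm]
          · have : (some j : Option σ) ≠ some i := fun h => hj (Option.some.inj h)
            simp [Finsupp.single_eq_of_ne this, hj]
        constructor
        · refine ⟨fun j => k j + if j = i then 1 else 0, ?_, ?_⟩
          · rw [sum_single I i hi k 1, hk1, en]
          · have h3 : ∑ j ∈ I, (L * (k j + if j = i then 1 else 0) - (Finsupp.single none 1 +
                (Finsupp.single (some i) L - Finsupp.single (some i) 1) + n :
                Option σ →₀ ℕ) (some j)) ≤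
                ∑ j ∈ I, ((L * k j - n (some j)) + if j = i then 1 else 0) := by
              refine Finset.sum_le_sum fun j _ => ?_
              rw [es]
              by_cases hj : j = i
              · simp only [hj, if_true, mul_add, mul_one]
                omega
              · simp only [hj, if_false, add_zero, le_refl]
            refine le_trans h3 ?_
            rw [sum_single I i hi (fun j => L * k j - n (some j)) 1]
            omega
        · rw [Uc, Set.mem_ofPred_eq]
          rw [Finset.sum_congr rfl fun j _ => es j, sum_single I i hi (fun j => n (some j)) (L - 1),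
            en]
          have hu' : ∑ j ∈ I, n (some j) ≤ d + L * n none := hu
          rw [mul_add, mul_one]
          omega
  · intro a e ha
    refine supIn_mul hQ ?_
    rintro m hm n ⟨⟨k, hk1, hk2⟩, hu⟩
    unfold inc at hm
    rw [MvPolynomial.support_rename_of_injective (Option.some_injective σ), Finset.mem_image] at hm
    obtain ⟨β, hβ, rfl⟩ := hm
    have en : (Finsupp.mapDomain some β + n : Option σ →₀ ℕ) none = n none := by
      rw [Finsupp.add_apply, Finsupp.mapDomain_of_notMem_range, zero_add]
      simp
    have es : ∀ j : σ, (Finsupp.mapDomain some β + n : Option σ →₀ ℕ) (some j) =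
        β j + n (some j) := by
      intro j
      rw [Finsupp.add_apply, Finsupp.mapDomain_apply (Option.some_injective σ)]
    constructor
    · refine ⟨k, by rw [hk1, en], le_trans (Finset.sum_le_sum fun j _ => ?_) hk2⟩
      rw [es]
      omega
    · rw [Uc, Set.mem_ofPred_eq]
      rw [Finset.sum_congr rfl fun j _ => es j, Finset.sum_add_distrib, en]
      have hu' : ∑ j ∈ I, n (some j) ≤ d + L * n none := hu
      have := ha β hβ
      omega

end Pool.Agent.NDR.H77C
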